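import Pool.Agent.H82.NTB.Stmts

set_option autoImplicit false

namespace Pool.NTB

open Pool.NET

theorem xmu_thm : XMU_S := by
  intro p e g e' g' h h' u hp hp' he hg v hv hv' t' s1 s2 s3 s4 h1 h2 h3 h4 h5 h6 h7 h8
  obtain ⟨q0, gq, gW, We, eM, MS⟩ := hp
  obtain ⟨_, gq', gW', We', eM', _⟩ := hp'
  constructor
  · have hn : nx2 h u (v, Ke.SE) = (v, Ke.R) := by
      simp only [nx2, if_neg hv]
    simp only [prM, hn, fx]
    generalize p.S * v.1 = A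
    rcases abs_cases (2 * (A + e + (A + p.M + g) - 2 * p.W) + 1 - 4 * (A + p.M + g' + s1)) with
      ⟨e1, f1⟩ | ⟨e1, f1⟩ <;>
    rcases abs_cases (2 * (A + e + (A + p.M + g) - 2 * p.W) + 1 - 4 * (A + p.M + g + s2)) with
      ⟨e2, f2⟩ | ⟨e2, f2⟩ <;> rw [e1, e2] <;> omega
  · simp only [prW, fy]
    generalize p.S * v.2 = A
    rcases abs_cases (4 * (A - e') + 1 - 4 * (A - e + s3)) with ⟨e1, f1⟩ | ⟨e1, f1⟩ <;>
    rcases abs_cases (4 * (A - e') + 1 - 4 * (A + e' + s4)) with ⟨e2, f2⟩ | ⟨e2, f2⟩ <;>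
      rw [e1, e2] <;> omega

end Pool.NTB
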